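import Pool.Graph.R_seed8.Results.MP_4b1745_al.OneVariable

/-!
# The centre and the algebraic elements of an algebra with solvable equations
-/

set_option autoImplicit false

namespace Pool.Agent.H66.ACS

open Polynomial
open Pool.Agent.Results.MP_4b1745_al.OneVariable

universe u v

/-- `[p(a), x] = p'(a)` if `[a, x] = 1`. -/
theorem comm_aeval {P : Type u} {R : Type v} [Field P] [Ring R] [Algebra P R] {a x : R}
    (h : a * x - x * a = 1) (p : Polynomial P) :
    aeval a p * x - x * aeval a p = aeval a (derivative p) := by
  induction p using Polynomial.induction_on' with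
  | add p q hp hq =>
    rw [map_add, derivative_add, map_add, ← hp, ← hq]
    noncomm_ring
  | monomial n c =>
    have hpow : ∀ n : ℕ, a ^ n * x - x * a ^ n = (n : R) * a ^ (n - 1) := by
      intro n
      induction n with
      | zero => simp
      | succ n ih =>
        have h1 : a ^ (n + 1) * x - x * a ^ (n + 1) =
            a * (a ^ n * x - x * a ^ n) + (a * x - x * a) * a ^ n := by
          rw [pow_succ']
          noncomm_ring
        rw [h1, ih, h, one_mul, Nat.add_sub_cancel]
        rcases n with _ | n
        · simp
        · rw [Nat.add_sub_cancel, Nat.cast_succ (n + 1), add_mul, one_mul, ← mul_assoc,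
            ← Nat.cast_comm, mul_assoc, ← pow_succ']
    rw [aeval_monomial, derivative_monomial, aeval_monomial]
    have h2 : algebraMap P R c * a ^ n * x - x * (algebraMap P R c * a ^ n) =
        algebraMap P R c * (a ^ n * x - x * a ^ n) := by
      rw [← mul_assoc x, ← Algebra.commutes c x]
      noncomm_ring
    rw [h2, hpow, map_mul, map_natCast, mul_assoc]

theorem struct2 (P : Type u) (R : Type v) [Field P] [Ring R] [Algebra P R] [Nontrivial R]
    [CharZero P] (h1 : ∀ a : R, a ∉ Set.range (algebraMap P R) → ∃ x, a * x - x * a = 1)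
    (h2 : ∀ p : Polynomial P, 0 < p.natDegree → ∃ a : R, Polynomial.aeval a p = 0) :
    IsAlgClosed P ∧ (∀ a : R, IsAlgebraic P a → a ∈ Set.range (algebraMap P R)) := by
  have key : ∀ a : R, IsAlgebraic P a → a ∈ Set.range (algebraMap P R) := by
    intro a ha
    by_contra hn
    obtain ⟨x, hx⟩ := h1 a hn
    have hint : IsIntegral P a := ha.isIntegral
    have hc := comm_aeval hx (minpoly P a)
    rw [minpoly.aeval, zero_mul, mul_zero, sub_zero] at hc
    have hdeg : 0 < (minpoly P a).natDegree := minpoly.natDegree_pos hint
    have hne : derivative (minpoly P a) ≠ 0 := by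
      intro h0
      have := derivative_eq_zero.1 h0
      omega
    have h3 := minpoly.degree_le_of_ne_zero P a hne hc.symm
    have h4 := degree_derivative_lt (minpoly.ne_zero hint)
    exact absurd h3 (not_le.2 h4)
  refine ⟨IsAlgClosed.of_exists_root P fun p hm hi => ?_, key⟩
  obtain ⟨a, ha⟩ := h2 p hi.natDegree_pos
  obtain ⟨c, rfl⟩ := key a ⟨p, hi.ne_zero, ha⟩
  refine ⟨c, ?_⟩
  rw [aeval_algebraMap_apply] at ha
  have hinj : Function.Injective (algebraMap P R) := (algebraMap P R).injective
  have h5 := hinj (ha.trans (map_zero _).symm)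
  rwa [coe_aeval_eq_eval] at h5

theorem aeval_X_map {P : Type u} {R : Type v} [Field P] [Ring R] [Algebra P R]
    (p : Polynomial P) : aeval (X : Polynomial R) p = p.map (algebraMap P R) := by
  induction p using Polynomial.induction_on' with
  | add p q hp hq => rw [map_add, Polynomial.map_add, hp, hq]
  | monomial n c =>
    rw [aeval_monomial, Polynomial.map_monomial, Polynomial.algebraMap_apply,
      C_mul_X_pow_eq_monomial]

theorem root2 {P : Type u} {R : Type v} [Field P] [Ring R] [Algebra P R] [Nontrivial R]
    (h : AlgClosedIn P R ℕ) : ∀ p : Polynomial P, 0 < p.natDegree →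
      ∃ a : R, Polynomial.aeval a p = 0 := by
  intro p hp
  obtain ⟨c, hc⟩ := h (aeval (var P R ℕ 0) p) (by
    rintro ⟨a, ha⟩
    have h1 := congrArg (lift (P := P) (I := ℕ) (Polynomial.CAlgHom (A := R) (R := P))
      (fun _ => (X : Polynomial R))) ha
    rw [lift_const, ← Polynomial.aeval_algHom_apply, lift_var, aeval_X_map] at h1
    have h2 : (Polynomial.CAlgHom (A := R) (R := P)) a = C a := rfl
    rw [h2] at h1
    have h3 := congrArg natDegree h1
    rw [natDegree_C, natDegree_map_eq_of_injective (algebraMap P R).injective] at h3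
    omega)
  refine ⟨c 0, ?_⟩
  unfold evalAt at hc
  rwa [← Polynomial.aeval_algHom_apply, lift_var] at hc

end Pool.Agent.H66.ACS
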