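import Pool.Graph.R_seed8.Helper7.Cube.Geo

/-! Coordinates on affine sections of the cube (after `Helper7.Cube.Geo`, the linear case). -/

set_option autoImplicit false

open MeasureTheory Matrix
open scoped ENNReal

namespace Pool.Agent.H66.Aff

theorem affine_geo (n k : ℕ) (S : Submodule ℝ (EuclideanSpace ℝ (Fin n)))
    (hS : Module.finrank ℝ S = k) (a : EuclideanSpace ℝ (Fin n)) :
    ∃ (u : Fin n → Fin k → ℝ) (c : Fin n → ℝ), ∑ i, vecMulVec (u i) (u i) = 1 ∧
      μHE[k] {x : EuclideanSpace ℝ (Fin n) | x - a ∈ S ∧ ∀ i, |x i| ≤ 1 / 2} =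
        volume {x : Fin k → ℝ | ∀ i, |u i ⬝ᵥ x - c i| ≤ 1 / 2} := by
  classical
  let b : OrthonormalBasis (Fin k) ℝ S := (stdOrthonormalBasis ℝ S).reindex (finCongr hS)
  refine ⟨fun i d => (b d : EuclideanSpace ℝ (Fin n)) i, fun i => - a i, ?_, ?_⟩
  · ext d c
    rw [Matrix.sum_apply]
    simp only [vecMulVec_apply]
    have h := b.inner_eq_ite d c
    have h2 : inner ℝ (b d) (b c) = inner ℝ (b d : EuclideanSpace ℝ (Fin n)) (b c) := rfl
    rw [h2, PiLp.inner_apply] at h
    simp only [RCLike.inner_apply, conj_trivial] at h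
    rw [Matrix.one_apply, ← h]
    exact Finset.sum_congr rfl fun i _ => mul_comm _ _
  · let g : S → EuclideanSpace ℝ (Fin n) := fun y => (y : EuclideanSpace ℝ (Fin n)) + a
    have hg : Isometry g := (IsometryEquiv.addRight a).isometry.comp isometry_subtype_coe
    have e : {x : EuclideanSpace ℝ (Fin n) | x - a ∈ S ∧ ∀ i, |x i| ≤ 1 / 2} =
        g '' {y : S | ∀ i, |(y : EuclideanSpace ℝ (Fin n)) i + a i| ≤ 1 / 2} := by
      ext x
      constructor
      · rintro ⟨hx, h⟩
        refine ⟨⟨x - a, hx⟩, fun i => ?_, ?_⟩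
        · have : (x - a) i + a i = x i := by simp
          show |(x - a) i + a i| ≤ 1 / 2
          rw [this]
          exact h i
        · show x - a + a = x
          exact sub_add_cancel x a
      · rintro ⟨y, hy, rfl⟩
        refine ⟨?_, fun i => hy i⟩
        show (y : EuclideanSpace ℝ (Fin n)) + a - a ∈ S
        rw [add_sub_cancel_right]
        exact y.2
    have hμ : (μHE[k] : Measure S) = volume := by
      rw [← hS]
      exact InnerProductSpace.euclideanHausdorffMeasure_eq_volume
    rw [e, hg.euclideanHausdorffMeasure_image, hμ]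
    have h1 := b.measurePreserving_repr_symm
    have h2 := (EuclideanSpace.volume_preserving_symm_measurableEquiv_toLp (Fin k)).symm
    have hM : MeasurableSet {x : S | ∀ i, |(x : EuclideanSpace ℝ (Fin n)) i + a i| ≤ 1 / 2} := by
      have : {x : S | ∀ i, |(x : EuclideanSpace ℝ (Fin n)) i + a i| ≤ 1 / 2} =
          ⋂ i, {x : S | |(x : EuclideanSpace ℝ (Fin n)) i + a i| ≤ 1 / 2} := by
        ext x; simp
      rw [this]
      refine MeasurableSet.iInter fun i => ?_
      refine (isClosed_le ?_ continuous_const).measurableSet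
      fun_prop
    rw [← h1.measure_preimage hM.nullMeasurableSet,
      ← h2.measure_preimage (h1.measurable hM).nullMeasurableSet]
    congr 1
    ext x
    simp only [Set.mem_preimage, Set.mem_ofPred_eq]
    refine forall_congr' fun i => ?_
    have : ((b.repr.symm ((MeasurableEquiv.toLp 2 (Fin _ → ℝ)) x) : S) :
        EuclideanSpace ℝ (Fin n)) i
        = (fun d => (b d : EuclideanSpace ℝ (Fin n)) i) ⬝ᵥ x := by
      rw [← b.sum_repr_symm]
      simp [dotProduct, mul_comm]
    rw [sub_neg_eq_add]
    constructor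
    · intro h; rw [← this]; exact h
    · intro h; rw [← this] at h; exact h

end Pool.Agent.H66.Aff
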