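import Pool.Graph.R_pool_sql_team_seeded_f0cf7b00.H49R2.ACA.T9

/-!
# One step of the differential closure on `W[[s_0, s_1, ...]]`

The library has this for the field of the complex numbers (`T9.lean`); here `W` is any algebraically
closed field of characteristic zero with `#W ^ ℵ₀ = #W`.
-/

set_option autoImplicit false
set_option linter.unusedSectionVars false

namespace Pool.Agent.H66.T9g

open Finset
open Pool.Agent.H49R2.ACA

theorem T9g_isDomain (W : Type) [Field W] : IsDomain (MvPowerSeries ℕ W) :=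
  NoZeroDivisors.to_isDomain _

theorem T9g_charZero (W : Type) [Field W] [CharZero W] : CharZero (MvPowerSeries ℕ W) :=
  charZero_of_injective_algebraMap (R := W) (A := MvPowerSeries ℕ W)
    (FaithfulSMul.algebraMap_injective W (MvPowerSeries ℕ W))

theorem aleph0_lt {W : Type} [Field W] (hW : Cardinal.mk W ^ Cardinal.aleph0.{0} = Cardinal.mk W) :
    Cardinal.aleph0 < Cardinal.mk W := by
  rw [← hW]
  have h2 : (2 : Cardinal.{0}) ≤ Cardinal.mk W := Cardinal.two_le_iff.2 ⟨0, 1, zero_ne_one⟩
  calc Cardinal.aleph0 < 2 ^ Cardinal.aleph0.{0} := Cardinal.cantor _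
    _ ≤ _ := Cardinal.power_le_power_right h2

theorem T9g_card (W : Type) [Field W] (hW : Cardinal.mk W ^ Cardinal.aleph0.{0} = Cardinal.mk W) :
    Cardinal.mk (MvPowerSeries ℕ W) = Cardinal.mk W := by
  have h : Cardinal.mk (MvPowerSeries ℕ W) = Cardinal.mk W ^ Cardinal.mk (ℕ →₀ ℕ) := by
    change Cardinal.mk ((ℕ →₀ ℕ) → W) = _
    simp
  have h2 : Cardinal.mk (ℕ →₀ ℕ) = Cardinal.aleph0 := Cardinal.mk_eq_aleph0 _
  rw [h, h2, hW]

theorem T9g_eps (W : Type) [Field W] [IsAlgClosed W] [CharZero W]
    (hW : Cardinal.mk W ^ Cardinal.aleph0.{0} = Cardinal.mk W) :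
    ∃ ε : MvPowerSeries ℕ W →+* W, Function.Injective ε := by
  have := T9g_isDomain W
  have := T9g_charZero W
  have hlt := aleph0_lt hW
  have : CharZero (FractionRing (MvPowerSeries ℕ W)) :=
    IsFractionRing.charZero (MvPowerSeries ℕ W)
  have : CharZero (AlgebraicClosure (FractionRing (MvPowerSeries ℕ W))) :=
    AlgebraicClosure.instCharZero _
  have hc1 : Cardinal.mk (FractionRing (MvPowerSeries ℕ W)) = Cardinal.mk W := by
    rw [Cardinal.mk_fractionRing, T9g_card W hW]
  have hc2 : Cardinal.mk (AlgebraicClosure (FractionRing (MvPowerSeries ℕ W))) =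
      Cardinal.mk W := by
    apply le_antisymm
    · refine (Algebra.IsAlgebraic.cardinalMk_le_max (FractionRing (MvPowerSeries ℕ W))
        (AlgebraicClosure (FractionRing (MvPowerSeries ℕ W)))).trans ?_
      rw [hc1]
      exact max_le le_rfl hlt.le
    · rw [← hc1]
      exact Cardinal.mk_le_of_injective
        (algebraMap (FractionRing (MvPowerSeries ℕ W))
          (AlgebraicClosure (FractionRing (MvPowerSeries ℕ W)))).injective
  obtain ⟨e⟩ := IsAlgClosed.ringEquiv_of_equiv_of_charZero
    (K := AlgebraicClosure (FractionRing (MvPowerSeries ℕ W))) (L := W)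
    (by rw [hc2]; exact hlt)
    (Cardinal.eq.1 hc2)
  refine ⟨(e : AlgebraicClosure (FractionRing (MvPowerSeries ℕ W)) →+* W).comp
    ((algebraMap (FractionRing (MvPowerSeries ℕ W))
      (AlgebraicClosure (FractionRing (MvPowerSeries ℕ W)))).comp
      (algebraMap (MvPowerSeries ℕ W) (FractionRing (MvPowerSeries ℕ W)))), ?_⟩
  intro x y hxy
  have h1 := e.injective hxy
  have h2 := (algebraMap (FractionRing (MvPowerSeries ℕ W))
      (AlgebraicClosure (FractionRing (MvPowerSeries ℕ W)))).injective h1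
  exact IsFractionRing.injective (MvPowerSeries ℕ W) (FractionRing (MvPowerSeries ℕ W)) h2

section
variable {W : Type} [Field W] [CharZero W]

open Classical in
/-- projection to the series in the first `n` variables, as a function -/
noncomputable def T9g_pif (n : ℕ) (f : MvPowerSeries ℕ W) : MvPowerSeries ℕ W :=
  fun m => if T9_good n m then MvPowerSeries.coeff m f else 0

open Classical in
theorem T9g_coeff_pif (n : ℕ) (f : MvPowerSeries ℕ W) (m : ℕ →₀ ℕ) :
    MvPowerSeries.coeff m (T9g_pif n f) =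
      if T9_good n m then MvPowerSeries.coeff m f else 0 := rfl

/-- projection to the series in the first `n` variables -/
noncomputable def T9g_pi (n : ℕ) : MvPowerSeries ℕ W →+* MvPowerSeries ℕ W where
  toFun := T9g_pif n
  map_zero' := by
    classical
    ext m
    rw [T9g_coeff_pif, map_zero, ite_self]
  map_one' := by
    classical
    ext m
    rw [T9g_coeff_pif]
    split_ifs with h
    · rfl
    · rw [MvPowerSeries.coeff_one, if_neg]
      rintro rfl
      exact h (fun _ _ => rfl)
  map_add' f g := by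
    classical
    ext m
    rw [map_add, T9g_coeff_pif, T9g_coeff_pif, T9g_coeff_pif]
    split_ifs with h
    · rw [map_add]
    · rw [add_zero]
  map_mul' f g := by
    classical
    ext m
    rw [MvPowerSeries.coeff_mul, T9g_coeff_pif]
    split_ifs with h
    · rw [MvPowerSeries.coeff_mul]
      refine Finset.sum_congr rfl fun p hp => ?_
      rw [Finset.HasAntidiagonal.mem_antidiagonal] at hp
      rw [← hp, T9_good_add] at h
      rw [T9g_coeff_pif, T9g_coeff_pif, if_pos h.1, if_pos h.2]
    · symm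
      refine Finset.sum_eq_zero fun p hp => ?_
      rw [Finset.HasAntidiagonal.mem_antidiagonal] at hp
      rw [← hp, T9_good_add, not_and_or] at h
      rw [T9g_coeff_pif, T9g_coeff_pif]
      rcases h with h | h
      · rw [if_neg h, zero_mul]
      · rw [if_neg h, mul_zero]

open Classical in
theorem T9g_coeff_pi (n : ℕ) (f : MvPowerSeries ℕ W) (m : ℕ →₀ ℕ) :
    MvPowerSeries.coeff m (T9g_pi n f) =
      if T9_good n m then MvPowerSeries.coeff m f else 0 := rfl

theorem T9g_pi_d (n i : ℕ) (hi : i < n) (f : MvPowerSeries ℕ W) :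
    T9g_pi n ((dps W).d i f) = (dps W).d i (T9g_pi n f) := by
  classical
  ext m
  rw [T9g_coeff_pi, dps_d, dps_d, MvPowerSeries.coeff_pderiv, MvPowerSeries.coeff_pderiv,
    T9g_coeff_pi, T9_good_add, T9_good_single]
  by_cases h : T9_good n m
  · rw [if_pos h, if_pos ⟨h, hi⟩]
  · rw [if_neg h, if_neg (fun h' => h h'.1), zero_mul]

theorem T9g_pi_low (n : ℕ) (f : MvPowerSeries ℕ W) : Low (dps W) n (T9g_pi n f) := by
  classical
  intro i hi
  ext m
  rw [dps_d, MvPowerSeries.coeff_pderiv, T9g_coeff_pi, T9_good_add, T9_good_single,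
    if_neg (fun h => absurd h.2 (not_lt.2 hi)), zero_mul, map_zero]

theorem T9g_pi_of_low (n : ℕ) (f : MvPowerSeries ℕ W) (hf : Low (dps W) n f) :
    T9g_pi n f = f := by
  classical
  ext m
  rw [T9g_coeff_pi]
  split_ifs with h
  · rfl
  · unfold T9_good at h
    push Not at h
    obtain ⟨i, hi, hm⟩ := h
    have h1 := congrArg (MvPowerSeries.coeff (m - Finsupp.single i 1)) (hf i hi)
    rw [dps_d, MvPowerSeries.coeff_pderiv, map_zero] at h1
    have h2 : m - Finsupp.single i 1 + Finsupp.single i 1 = m := by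
      apply tsub_add_cancel_of_le
      rw [Finsupp.single_le_iff]
      omega
    rw [h2] at h1
    rcases mul_eq_zero.1 h1 with h3 | h3
    · exact h3.symm
    · exfalso
      have : (((m - Finsupp.single i 1 : ℕ →₀ ℕ) i : ℕ) : W) + 1 ≠ 0 := by
        have h4 := Nat.cast_add_one_ne_zero (R := W) ((m - Finsupp.single i 1 : ℕ →₀ ℕ) i)
        exact h4
      exact this h3

theorem T9g_pi_eval (n : ℕ) (t : DTerm (MvPowerSeries ℕ W)) (ht : t.ConstsIn (Low (dps W) n))
    (x : MvPowerSeries ℕ W) :
    T9g_pi n ((T9_cut n t).eval (dps W) x) = (T9_cut n t).eval (dps W) (T9g_pi n x) := by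
  induction t with
  | const a => exact T9g_pi_of_low n a ht
  | var => rfl
  | add s t hs h2 =>
    change T9g_pi n ((T9_cut n s).eval (dps W) x + (T9_cut n t).eval (dps W) x) =
      (T9_cut n s).eval (dps W) (T9g_pi n x) + (T9_cut n t).eval (dps W) (T9g_pi n x)
    rw [map_add, hs ht.1, h2 ht.2]
  | mul s t hs h2 =>
    change T9g_pi n ((T9_cut n s).eval (dps W) x * (T9_cut n t).eval (dps W) x) =
      (T9_cut n s).eval (dps W) (T9g_pi n x) * (T9_cut n t).eval (dps W) (T9g_pi n x)
    rw [map_mul, hs ht.1, h2 ht.2]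
  | der i t h =>
    unfold T9_cut
    split_ifs with hi
    · change T9g_pi n ((dps W).d i ((T9_cut n t).eval (dps W) x)) =
        (dps W).d i ((T9_cut n t).eval (dps W) (T9g_pi n x))
      rw [T9g_pi_d n i hi, h ht]
    · exact map_zero (T9g_pi n)

end

/-! ### the step -/

theorem exists_step_gen (W : Type) [Field W] [IsAlgClosed W] [CharZero W]
    (hW : Cardinal.mk W ^ Cardinal.aleph0.{0} = Cardinal.mk W) : ∃ T : MvPowerSeries ℕ W →+* MvPowerSeries ℕ W, Function.Injective T ∧
    (∀ i a, T ((dps W).d i a) = (dps W).d i (T a)) ∧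
    ∀ (n : ℕ) (t : DTerm (MvPowerSeries ℕ W)), t.ConstsIn (Low (dps W) n) →
      (∃ a b, Low (dps W) n a ∧ Low (dps W) n b ∧ t.eval (dps W) a ≠ t.eval (dps W) b) →
      ∃ a, Low (dps W) n a ∧ (t.map T).eval (dps W) a = 0 := by
  have := T9g_isDomain W
  have := T9g_charZero W
  obtain ⟨ε, hε⟩ := T9g_eps W hW
  obtain ⟨T, hT1, hT2⟩ := exists_taylor (dps W) ε
  refine ⟨T, ?_, fun i a => (hT2 i a).symm, ?_⟩
  · intro x y hxy
    apply hε
    rw [← hT1, ← hT1, hxy]
  · intro n t ht hab
    obtain ⟨a, b, ha, hb, hne⟩ := hab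
    obtain ⟨Δ, hC, hX⟩ := exists_dpoly (dps W)
    have hne' : (T9_cut n t).eval (dps W) a ≠ (T9_cut n t).eval (dps W) b := by
      rw [T9_cut_eval (dps W) n t ht ha, T9_cut_eval (dps W) n t ht hb]
      exact hne
    have hF := T9_not_const (dps W) Δ hC hX (T9_cut n t) a b hne'
    obtain ⟨T', h1, h2, h3⟩ := exists_solution (dps W) Δ hC hX ε hε _ hF
    have hTT : T'.comp MvPolynomial.C = T := by
      apply taylor_unique (dps W)
      · intro a
        rw [hT1]
        exact h1 a
      · intro i a
        change (dps W).d i (T' (MvPolynomial.C a)) = T' (MvPolynomial.C ((dps W).d i a))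
        rw [h2, hC]
      · exact hT2
    have hTT' : ∀ a, T' (MvPolynomial.C a) = T a := fun a => by rw [← hTT]; rfl
    have hev := T9_poly_eval Δ (dps W) T' (fun i p => (h2 i p).symm) T hTT' (T9_cut n t)
    rw [h3] at hev
    have hTlow : ∀ c, Low (dps W) n c → Low (dps W) n (T c) := fun c hc i hi => by
      rw [hT2, hc i hi, map_zero]
    have hmt : (t.map T).ConstsIn (Low (dps W) n) := T9_consts_map T _ _ hTlow t ht
    refine ⟨T9g_pi n (T' (MvPolynomial.X 0)), T9g_pi_low n _, ?_⟩
    rw [← T9_cut_eval (dps W) n (t.map T) hmt (T9g_pi_low n _), ← T9g_pi_eval n _ hmt,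
      T9_cut_map, ← hev, map_zero]


/-- There is such a field containing a given one. -/
theorem exists_W (K : Type) [Field K] [CharZero K] :
    ∃ (W : Type) (_ : Field W) (_ : IsAlgClosed W) (_ : CharZero W) (_ : K →+* W),
      Cardinal.mk W ^ Cardinal.aleph0.{0} = Cardinal.mk W := by
  have h2 : (2 : Cardinal.{0}) ≤ Cardinal.mk K := Cardinal.two_le_iff.2 ⟨0, 1, zero_ne_one⟩
  set κ := Cardinal.mk K ^ Cardinal.aleph0.{0} with hκ
  have hlt : Cardinal.aleph0 < κ := lt_of_lt_of_le (Cardinal.cantor _)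
    (Cardinal.power_le_power_right h2)
  have hK : Cardinal.mk K ≤ κ := Cardinal.self_le_power _ Cardinal.one_le_aleph0
  have hs : Cardinal.mk (ℕ → K) = κ := by simp [hκ]
  have hP : Cardinal.mk (MvPolynomial (ℕ → K) K) = κ := by
    rw [MvPolynomial.cardinalMk_eq_max, hs, max_eq_right hK, max_eq_left hlt.le]
  have hF : Cardinal.mk (FractionRing (MvPolynomial (ℕ → K) K)) = κ := by
    rw [Cardinal.mk_fractionRing, hP]
  have hA : Cardinal.mk (AlgebraicClosure (FractionRing (MvPolynomial (ℕ → K) K))) = κ := by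
    apply le_antisymm
    · refine (Algebra.IsAlgebraic.cardinalMk_le_max (FractionRing (MvPolynomial (ℕ → K) K))
        (AlgebraicClosure (FractionRing (MvPolynomial (ℕ → K) K)))).trans ?_
      rw [hF]
      exact max_le le_rfl hlt.le
    · rw [← hF]
      exact Cardinal.mk_le_of_injective
        (algebraMap (FractionRing (MvPolynomial (ℕ → K) K))
          (AlgebraicClosure (FractionRing (MvPolynomial (ℕ → K) K)))).injective
  have : CharZero (MvPolynomial (ℕ → K) K) := inferInstance
  have : CharZero (FractionRing (MvPolynomial (ℕ → K) K)) :=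
    IsFractionRing.charZero (MvPolynomial (ℕ → K) K)
  refine ⟨AlgebraicClosure (FractionRing (MvPolynomial (ℕ → K) K)), inferInstance, inferInstance,
    AlgebraicClosure.instCharZero _,
    ((algebraMap (FractionRing (MvPolynomial (ℕ → K) K))
      (AlgebraicClosure (FractionRing (MvPolynomial (ℕ → K) K)))).comp
      (algebraMap (MvPolynomial (ℕ → K) K) (FractionRing (MvPolynomial (ℕ → K) K)))).comp
      MvPolynomial.C, ?_⟩
  rw [hA, hκ, ← Cardinal.power_mul, Cardinal.aleph0_mul_aleph0]

end Pool.Agent.H66.T9g
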